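import Mathlib
import Pool.Agent.W25.UB.Stm

/-!
# Square of a sieve weight at multiples of two numbers
-/

set_option autoImplicit false

namespace Pool.Agent.W885.UBFT1

open Finset
open Pool.Agent.W25.UB Pool.Agent.W25.UN
open Pool.Agent.H362R2.CM (IP prP)
open Pool.Agent.H410R2 (mulc lgt)

theorem Ex_congr {S S' : ℕ → Prop} {Y Y' R R' : ℝ} {Φ Φ' : ℤ → ℝ} {m m' : ℝ} (h : Ex S Y R Φ m)
    (hS : ∀ p, S p → S' p) (hY : Y ≤ Y') (hR : R ≤ R') (hΦ : ∀ n, Φ' n = Φ n) (hm : m' = m) :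
    Ex S' Y' R' Φ' m' := by
  obtain ⟨s, φ, h1, h2, h3, h4⟩ := h
  refine ⟨s, φ, fun n => (hΦ n).trans (h1 n), h2.trans hY, fun x hx => ?_, hm.trans h4⟩
  obtain ⟨a1, a2, a3, a4, a5⟩ := h3 x hx
  exact ⟨a1, a2.trans hR, a3, a4, fun p hp hpx => hS p (a5 p hp hpx)⟩

theorem root (p : ℕ) (hp : p.Prime) (a b : ℤ) (ha : ¬ (p : ℤ) ∣ a) :
    ∃ r : ℤ, ∀ n : ℤ, (p : ℤ) ∣ a * n + b ↔ (p : ℤ) ∣ n - r := by
  have hc : IsCoprime (p : ℤ) a :=
    (Nat.prime_iff_prime_int.1 hp).irreducible.coprime_iff_not_dvd.2 ha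
  obtain ⟨x, y, hxy⟩ := hc
  refine ⟨-(y * b), fun n => ⟨fun h => ?_, fun h => ?_⟩⟩
  · have h1 : n - -(y * b) = y * (a * n + b) + (x * n) * p := by
      linear_combination (-n) * hxy
    rw [h1]
    exact dvd_add (h.mul_left y) (Dvd.intro_left _ rfl)
  · have h1 : a * n + b = a * (n - -(y * b)) + (x * b) * p := by
      linear_combination (-b) * hxy
    rw [h1]
    exact dvd_add (h.mul_left a) (Dvd.intro_left _ rfl)

section

variable {k : ℕ} {u w : Option (Fin k) → ℤ}

/-- the indicator of the divisibility of a form by `p` -/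
noncomputable def Ind (u w : Option (Fin k) → ℤ) (p : ℕ) (l : Option (Fin k)) (n : ℤ) : ℝ :=
  if (p : ℤ) ∣ u l * n + w l then 1 else 0

theorem Ind_disj {p : ℕ} (hG : Gd u w p) {l l' : Option (Fin k)} (h : l ≠ l') (n : ℤ) :
    ¬ ((p : ℤ) ∣ u l * n + w l ∧ (p : ℤ) ∣ u l' * n + w l') := by
  rintro ⟨h1, h2⟩
  apply hG.2.2.2 l l' h
  have h3 : u l * w l' - u l' * w l = u l * (u l' * n + w l') - u l' * (u l * n + w l) := by ring
  rw [h3]
  exact dvd_sub (h2.mul_left _) (h1.mul_left _)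

theorem Ind_mul {p : ℕ} (hG : Gd u w p) {l l' : Option (Fin k)} (h : l ≠ l') (n : ℤ) :
    Ind u w p l n * Ind u w p l' n = 0 := by
  unfold Ind
  by_cases h1 : (p : ℤ) ∣ u l * n + w l
  · by_cases h2 : (p : ℤ) ∣ u l' * n + w l'
    · exact absurd ⟨h1, h2⟩ (Ind_disj hG h n)
    · rw [if_neg h2, mul_zero]
  · rw [if_neg h1, zero_mul]

theorem Ind_sq (p : ℕ) (l : Option (Fin k)) (n : ℤ) :
    Ind u w p l n * Ind u w p l n = Ind u w p l n := by
  unfold Ind
  split_ifs <;> norm_num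

theorem hz_some (p : ℕ) (n : ℤ) (l : Option (Fin k)) :
    hz u w p n (some l) = p * Ind u w p l n - 1 := by
  show (if (p : ℤ) ∣ u l * n + w l then (p : ℝ) else 0) - 1 = _
  unfold Ind
  split_ifs <;> ring

theorem ex_one (hE : St_EXM) (S : ℕ → Prop) : Ex S 1 1 (fun _ => 1) 1 := by
  have h := hE.2.2.2.1 S 1 0 le_rfl odd_one squarefree_one
    (fun p hp h1 => absurd (Nat.dvd_one.1 h1) hp.one_lt.ne')
  refine Ex_congr h (fun _ h => h) le_rfl (by norm_num) ?_ (by norm_num)
  intro n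
  rw [if_pos (by norm_num)]

theorem ex_ind (hE : St_EXM) {p : ℕ} (hG : Gd u w p) (l : Option (Fin k)) :
    Ex (fun q => q = p) 1 p (Ind u w p l) (1 / p) := by
  obtain ⟨r, hr⟩ := root p hG.1 (u l) (w l) (hG.2.2.1 l)
  have h := hE.2.2.2.1 (fun q => q = p) p r hG.1.one_le
    (hG.1.odd_of_ne_two (by have := hG.2.1; omega)) hG.1.squarefree
    (fun q hq h1 => (Nat.prime_dvd_prime_iff_eq hq hG.1).1 h1)
  refine Ex_congr h (fun _ h => h) le_rfl le_rfl ?_ rfl
  intro n
  unfold Ind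
  simp only [hr n]

theorem ex_three (hE : St_EXM) {p : ℕ} (hG : Gd u w p) (l l' : Option (Fin k)) (a b c : ℝ) :
    Ex (fun q => q = p) (|a| + |b| + |c|) p
      (fun n => a + b * Ind u w p l n + c * Ind u w p l' n) (a + b / p + c / p) := by
  have hp1 : (1 : ℝ) ≤ p := by exact_mod_cast hG.1.one_le
  have h := hE.2.1 (fun q => q = p) (Fin 3) univ ![a, b, c] (fun _ => 1) p
    ![fun _ => 1, Ind u w p l, Ind u w p l'] ![1, 1 / p, 1 / p] (by
      intro i _
      fin_cases i
      · exact Ex_congr (ex_one hE _) (fun _ h => h) le_rfl hp1 (fun _ => rfl) rfl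
      · exact ex_ind hE hG l
      · exact ex_ind hE hG l')
  refine Ex_congr h (fun _ h => h) ?_ le_rfl ?_ ?_
  · rw [Fin.sum_univ_three]
    simp
  · intro n
    rw [Fin.sum_univ_three]
    simp
  · rw [Fin.sum_univ_three]
    simp
    ring

/-- `1` at `none` and `x` elsewhere -/
noncomputable def wt (x : ℝ) (s : Option (Option (Fin k))) : ℝ := if s = none then 1 else x

theorem one_le_wt {x : ℝ} (hx : 1 ≤ x) (s : Option (Option (Fin k))) : 1 ≤ wt x s := by
  unfold wt
  split_ifs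
  · exact le_rfl
  · exact hx

theorem wt_none (x : ℝ) : wt x (none : Option (Option (Fin k))) = 1 := by
  unfold wt
  rw [if_pos rfl]

theorem wt_some (x : ℝ) (l : Option (Fin k)) : wt x (some l) = x := by
  unfold wt
  rw [if_neg (Option.some_ne_none l)]

/-- no condition on the divisibility -/
theorem loc0 (hE : St_EXM) {p : ℕ} (hG : Gd u w p) (s s' : Option (Option (Fin k))) :
    Ex (fun q => q = p) (wt ((p : ℝ) + 1) s * wt ((p : ℝ) + 1) s') (wt (p : ℝ) s * wt (p : ℝ) s')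
      (fun n => hz u w p n s * hz u w p n s') (g1 p s s') := by
  have hp3 : (3 : ℝ) ≤ p := by exact_mod_cast hG.2.1
  have hp0 : (p : ℝ) ≠ 0 := by positivity
  rcases s with _ | l <;> rcases s' with _ | l'
  · refine Ex_congr (ex_one hE _) (fun _ h => h) ?_ ?_ ?_ rfl
    · rw [wt_none]; norm_num
    · rw [wt_none]; norm_num
    · intro n
      simp [hz]
  · refine Ex_congr (ex_three hE hG l' l' (-1) p 0) (fun _ h => h) ?_ ?_ ?_ ?_
    · rw [wt_none, wt_some, abs_neg, abs_one, abs_zero, abs_of_nonneg (by linarith)]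
      linarith
    · rw [wt_none, wt_some, one_mul]
    · intro n
      rw [hz_some]
      simp only [hz]
      ring
    · simp only [g1]
      field_simp
      ring
  · refine Ex_congr (ex_three hE hG l l (-1) p 0) (fun _ h => h) ?_ ?_ ?_ ?_
    · rw [wt_none, wt_some, abs_neg, abs_one, abs_zero, abs_of_nonneg (by linarith)]
      linarith
    · rw [wt_none, wt_some, mul_one]
    · intro n
      rw [hz_some]
      simp only [hz]
      ring
    · simp only [g1]
      field_simp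
      ring
  · by_cases hl : l = l'
    · subst hl
      refine Ex_congr (ex_three hE hG l l 1 ((p : ℝ) ^ 2 - 2 * p) 0) (fun _ h => h) ?_ ?_ ?_ ?_
      · rw [wt_some, abs_one, abs_zero, abs_of_nonneg (by nlinarith)]
        nlinarith
      · rw [wt_some]
        nlinarith
      · intro n
        rw [hz_some]
        have := Ind_sq (u := u) (w := w) p l n
        linear_combination ((p : ℝ) ^ 2) * this
      · simp only [g1, if_true]
        field_simp
        ring
    · refine Ex_congr (ex_three hE hG l l' 1 (-p) (-p)) (fun _ h => h) ?_ ?_ ?_ ?_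
      · rw [wt_some, wt_some, abs_one, abs_neg, abs_of_nonneg (by linarith)]
        nlinarith
      · rw [wt_some, wt_some]
        nlinarith
      · intro n
        rw [hz_some, hz_some]
        have := Ind_mul hG hl n
        linear_combination ((p : ℝ) ^ 2) * this
      · simp only [g1, if_neg hl]
        field_simp
        ring

theorem hz_Ind {p : ℕ} (hG : Gd u w p) (j : Option (Fin k)) (s : Option (Option (Fin k)))
    (hs : s ≠ some j) (n : ℤ) : hz u w p n s * Ind u w p j n = sg s * Ind u w p j n := by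
  rcases s with _ | l
  · simp [hz, sg]
  · have hl : l ≠ j := fun h => hs (by rw [h])
    rw [hz_some]
    have := Ind_mul hG hl n
    simp only [sg]
    linear_combination (p : ℝ) * this

theorem abs_sg (s : Option (Option (Fin k))) : |sg s| = 1 := by
  rcases s with _ | l
  · simp [sg]
  · simp [sg]

/-- one of the forms is divisible by `p` -/
theorem loc1 (hE : St_EXM) {p : ℕ} (hG : Gd u w p) (j : Option (Fin k))
    (s s' : Option (Option (Fin k))) (hs : s ≠ some j) (hs' : s' ≠ some j) :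
    Ex (fun q => q = p) (wt ((p : ℝ) + 1) s * wt ((p : ℝ) + 1) s')
      (wt (p : ℝ) s * wt (p : ℝ) s' * p)
      (fun n => hz u w p n s * hz u w p n s' * Ind u w p j n) (1 / p * (sg s * sg s')) := by
  have hp3 : (3 : ℝ) ≤ p := by exact_mod_cast hG.2.1
  have hp0 : (p : ℝ) ≠ 0 := by positivity
  have a1 := one_le_wt (show (1 : ℝ) ≤ (p : ℝ) + 1 by linarith) s
  have a2 := one_le_wt (show (1 : ℝ) ≤ (p : ℝ) + 1 by linarith) s'
  have a3 := one_le_wt (show (1 : ℝ) ≤ (p : ℝ) by linarith) s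
  have a4 := one_le_wt (show (1 : ℝ) ≤ (p : ℝ) by linarith) s'
  refine Ex_congr (ex_three hE hG j j 0 (sg s * sg s') 0) (fun _ h => h) ?_ ?_ ?_ ?_
  · rw [abs_zero, abs_mul, abs_sg, abs_sg]
    nlinarith
  · exact le_mul_of_one_le_left (by positivity) (one_le_mul_of_one_le_of_one_le a3 a4)
  · intro n
    have h1 := hz_Ind hG j s hs n
    have h2 := hz_Ind hG j s' hs' n
    linear_combination (hz u w p n s') * h1 + (sg s) * h2
  · field_simp
    ring

/-- the local factor -/
theorem loc (hE : St_EXM) {p : ℕ} (hG : Gd u w p) (j j' : Option (Fin k))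
    (s s' : Option (Option (Fin k))) (e e' : ℕ) (hne : ¬ (p ∣ e ∧ p ∣ e'))
    (h1 : p ∣ e → s ≠ some j ∧ s' ≠ some j) (h2 : p ∣ e' → s ≠ some j' ∧ s' ≠ some j') :
    Ex (fun q => q = p) (wt ((p : ℝ) + 1) s * wt ((p : ℝ) + 1) s')
      (wt (p : ℝ) s * wt (p : ℝ) s' * (if p ∣ e * e' then (p : ℝ) else 1))
      (fun n => hz u w p n s * hz u w p n s' * ((if p ∣ e then Ind u w p j n else 1) *
        (if p ∣ e' then Ind u w p j' n else 1)))
      ((if p ∣ e * e' then (1 / p : ℝ) else 1) *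
        (if p ∣ e * e' then sg s * sg s' else g1 p s s')) := by
  by_cases he : p ∣ e
  · have he' : ¬ p ∣ e' := fun h => hne ⟨he, h⟩
    have hee : p ∣ e * e' := he.mul_right e'
    simp only [if_pos he, if_neg he', if_pos hee, mul_one]
    exact loc1 hE hG j s s' (h1 he).1 (h1 he).2
  · by_cases he' : p ∣ e'
    · have hee : p ∣ e * e' := he'.mul_left e
      simp only [if_neg he, if_pos he', if_pos hee, one_mul]
      exact loc1 hE hG j' s s' (h2 he').1 (h2 he').2
    · have hee : ¬ p ∣ e * e' := fun h => (hG.1.dvd_mul.1 h).elim he he'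
      simp only [if_neg he, if_neg he', if_neg hee, mul_one, one_mul]
      exact loc0 hE hG s s'

end

theorem prodEx (hE : St_EXM) (Y R : ℕ → ℝ) (L : ℕ → ℤ → ℝ) (m : ℕ → ℝ) (A : Finset ℕ)
    (h : ∀ p ∈ A, Ex (fun q => q = p) (Y p) (R p) (L p) (m p)) (hR : ∀ p ∈ A, 0 ≤ R p) :
    Ex (fun q => q ∈ A) (∏ p ∈ A, Y p) (∏ p ∈ A, R p) (fun n => ∏ p ∈ A, L p n)
      (∏ p ∈ A, m p) := by
  classical
  induction A using Finset.induction_on with
  | empty =>
    simp only [prod_empty]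
    exact ex_one hE _
  | insert a A ha ih =>
    have ih' := ih (fun p hp => h p (mem_insert_of_mem hp)) (fun p hp => hR p (mem_insert_of_mem hp))
    have h1 := hE.1 (fun q => q = a) (fun q => q ∈ A) (Y a) (∏ p ∈ A, Y p) (R a) (∏ p ∈ A, R p)
      (L a) (fun n => ∏ p ∈ A, L p n) (m a) (∏ p ∈ A, m p) (h a (mem_insert_self a A)) ih'
      (fun p hp hpA => ha (hp ▸ hpA)) (hR a (mem_insert_self a A))
      (prod_nonneg fun p hp => hR p (mem_insert_of_mem hp))
    refine Ex_congr h1 ?_ ?_ ?_ ?_ ?_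
    · intro p hp
      exact mem_insert.2 hp
    · rw [prod_insert ha]
    · rw [prod_insert ha]
    · intro n
      rw [prod_insert ha]
    · rw [prod_insert ha]

section asm

variable {k : ℕ}

/-- extension of a coloured set by `none` -/
noncomputable def ext (P : Finset ℕ) (σ : IP P → Option (Option (Fin k))) (p : ℕ) :
    Option (Option (Fin k)) :=
  if h : p ∈ P then σ ⟨p, h⟩ else none

theorem ext_mem (P : Finset ℕ) (σ : IP P → Option (Option (Fin k))) (t : IP P) :
    ext P σ t.1 = σ t := by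
  unfold ext
  rw [dif_pos t.2]

theorem ext_not (P : Finset ℕ) (σ : IP P → Option (Option (Fin k))) {p : ℕ} (h : p ∉ P) :
    ext P σ p = none := by
  unfold ext
  rw [dif_neg h]

theorem prod_ext (P A : Finset ℕ) (hPA : P ⊆ A) (σ τ : IP P → Option (Option (Fin k)))
    (F : ℕ → Option (Option (Fin k)) → Option (Option (Fin k)) → ℝ)
    (hF : ∀ p, p ∉ P → F p none none = 1) :
    ∏ p ∈ A, F p (ext P σ p) (ext P τ p) = ∏ t : IP P, F (prP P t) (σ t) (τ t) := by
  rw [← prod_subset hPA (fun p _ hp => by rw [ext_not P σ hp, ext_not P τ hp, hF p hp])]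
  rw [← prod_coe_sort P]
  refine prod_congr rfl fun t _ => ?_
  rw [ext_mem, ext_mem]

theorem sq_dvd (e : ℕ) (he : Squarefree e) (M : ℤ) (A : Finset ℕ) (hA : e.primeFactors ⊆ A) :
    ∏ p ∈ A, (if p ∣ e then (if (p : ℤ) ∣ M then (1 : ℝ) else 0) else 1) =
      if (e : ℤ) ∣ M then 1 else 0 := by
  by_cases h : (e : ℤ) ∣ M
  · rw [if_pos h]
    refine prod_eq_one fun p _ => ?_
    by_cases hp : p ∣ e
    · rw [if_pos hp, if_pos ((Int.natCast_dvd_natCast.2 hp).trans h)]
    · rw [if_neg hp]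
  · rw [if_neg h]
    have h1 : ∃ p, p.Prime ∧ p ∣ e ∧ ¬ (p : ℤ) ∣ M := by
      by_contra hc
      apply h
      rw [Int.natCast_dvd, ← Nat.prod_primeFactors_of_squarefree he]
      refine prod_primes_dvd _ (fun p hp => (Nat.prime_of_mem_primeFactors hp).prime) ?_
      intro p hp
      by_contra hc'
      exact hc ⟨p, Nat.prime_of_mem_primeFactors hp, Nat.dvd_of_mem_primeFactors hp,
        fun h' => hc' (Int.natCast_dvd.1 h')⟩
    obtain ⟨p, hp, hpe, hpM⟩ := h1
    refine prod_eq_zero (hA (Nat.mem_primeFactors.2 ⟨hp, hpe, he.ne_zero⟩)) ?_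
    rw [if_pos hpe, if_neg hpM]

theorem prod_id (N : ℕ) (hN : Squarefree N) (A : Finset ℕ) (hA : N.primeFactors ⊆ A)
    (hpr : ∀ p ∈ A, p.Prime) : ∏ p ∈ A, (if p ∣ N then (p : ℝ) else 1) = N := by
  rw [← prod_filter]
  have h : A.filter (fun p => p ∣ N) = N.primeFactors := by
    ext p
    rw [mem_filter, Nat.mem_primeFactors]
    exact ⟨fun h => ⟨hpr p h.1, h.2, hN.ne_zero⟩,
      fun h => ⟨hA (Nat.mem_primeFactors.2 h), h.2.1⟩⟩
  rw [h, ← Nat.cast_prod, Nat.prod_primeFactors_of_squarefree hN]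

theorem prod_inv (N : ℕ) (hN : Squarefree N) (A : Finset ℕ) (hA : N.primeFactors ⊆ A)
    (hpr : ∀ p ∈ A, p.Prime) : ∏ p ∈ A, (if p ∣ N then (1 / (p : ℝ)) else 1) = 1 / N := by
  rw [one_div (N : ℝ), ← prod_id N hN A hA hpr, ← prod_inv_distrib]
  refine prod_congr rfl fun p _ => ?_
  split_ifs
  · rw [one_div]
  · rw [inv_one]

theorem mulc_eq (P : Finset ℕ) (σ : IP P → Option (Option (Fin k))) :
    mulc (prP P) (fun p => (p : ℝ) + 1) σ = ∏ t : IP P, wt ((prP P t : ℝ) + 1) (σ t) := by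
  unfold mulc wt
  refine prod_congr rfl fun t _ => ?_
  by_cases h : σ t = none
  · simp [h]
  · simp [h]

theorem lgt_eq (P : Finset ℕ) (hP : ∀ p ∈ P, 0 < p) (σ : IP P → Option (Option (Fin k))) :
    ∏ t : IP P, wt (prP P t : ℝ) (σ t) = Real.exp (lgt (prP P) σ) := by
  unfold lgt wt
  rw [Real.exp_sum]
  refine prod_congr rfl fun t _ => ?_
  by_cases h : σ t = none
  · rw [if_pos h, if_pos h, Real.exp_zero]
  · rw [if_neg h, if_neg h, Real.exp_log (by exact_mod_cast hP t.1 t.2)]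

theorem pair (hE : St_EXM) {u w : Option (Fin k) → ℤ} {P : Finset ℕ} {j j' : Option (Fin k)}
    {e e' : ℕ} {Rc : ℝ} {S : ℕ → Prop} (hP : ∀ p ∈ P, Gd u w p ∧ S p) (hsq : Squarefree e)
    (hsq' : Squarefree e') (hpr : ∀ p : ℕ, p.Prime → p ∣ e * e' → Gd u w p ∧ S p)
    (hcop : Nat.Coprime e e') (σ τ : IP P → Option (Option (Fin k)))
    (hlσ : lgt (prP P) σ ≤ Rc) (hlτ : lgt (prP P) τ ≤ Rc)
    (h1 : e ≠ 1 → ∀ t, σ t ≠ some j ∧ τ t ≠ some j)
    (h2 : e' ≠ 1 → ∀ t, σ t ≠ some j' ∧ τ t ≠ some j') :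
    Ex S (mulc (prP P) (fun p => (p : ℝ) + 1) σ * mulc (prP P) (fun p => (p : ℝ) + 1) τ)
      (Real.exp (2 * Rc) * (e * e'))
      (fun n => (∏ t : IP P, hz u w (prP P t) n (σ t)) * (∏ t : IP P, hz u w (prP P t) n (τ t)) *
        ((if (e : ℤ) ∣ u j * n + w j then 1 else 0) *
          (if (e' : ℤ) ∣ u j' * n + w j' then 1 else 0)))
      (1 / ((e : ℝ) * e') * ∏ t : IP P, (if prP P t ∣ e * e' then sg (σ t) * sg (τ t) else
        g1 (prP P t) (σ t) (τ t))) := by
  classical
  have hsqm : Squarefree (e * e') := (Nat.squarefree_mul hcop).2 ⟨hsq, hsq'⟩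
  set A : Finset ℕ := P ∪ (e * e').primeFactors with hAdef
  have hPA : P ⊆ A := subset_union_left
  have hEA : (e * e').primeFactors ⊆ A := subset_union_right
  have he1 : e.primeFactors ⊆ A :=
    (Nat.primeFactors_mono (Dvd.intro _ rfl) hsqm.ne_zero).trans hEA
  have he2 : e'.primeFactors ⊆ A :=
    (Nat.primeFactors_mono (Dvd.intro_left _ rfl) hsqm.ne_zero).trans hEA
  have hA : ∀ p ∈ A, Gd u w p ∧ S p := by
    intro p hp
    rcases mem_union.1 hp with h | h
    · exact hP p h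
    · exact hpr p (Nat.prime_of_mem_primeFactors h) (Nat.dvd_of_mem_primeFactors h)
  have hAp : ∀ p ∈ A, p.Prime := fun p hp => (hA p hp).1.1
  have hx : ∀ (j : Option (Fin k)) (ρ : IP P → Option (Option (Fin k))),
      (∀ t, ρ t ≠ some j) → ∀ p, ext P ρ p ≠ some j := by
    intro j ρ hρ p
    unfold ext
    split_ifs with h
    · exact hρ _
    · exact (Option.some_ne_none j).symm
  have hprod := prodEx hE
    (fun p => wt ((p : ℝ) + 1) (ext P σ p) * wt ((p : ℝ) + 1) (ext P τ p))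
    (fun p => wt (p : ℝ) (ext P σ p) * wt (p : ℝ) (ext P τ p) *
      (if p ∣ e * e' then (p : ℝ) else 1))
    (fun p n => hz u w p n (ext P σ p) * hz u w p n (ext P τ p) *
      ((if p ∣ e then Ind u w p j n else 1) * (if p ∣ e' then Ind u w p j' n else 1)))
    (fun p => (if p ∣ e * e' then (1 / p : ℝ) else 1) *
        (if p ∣ e * e' then sg (ext P σ p) * sg (ext P τ p) else
          g1 p (ext P σ p) (ext P τ p))) A
    (fun p hp => loc hE (hA p hp).1 j j' (ext P σ p) (ext P τ p) e e'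
      (fun h => (hAp p hp).one_lt.ne' (Nat.dvd_one.1 (hcop ▸ Nat.dvd_gcd h.1 h.2)))
      (fun h => by
        have : e ≠ 1 := by
          rintro rfl
          exact (hAp p hp).one_lt.ne' (Nat.dvd_one.1 h)
        exact ⟨hx j σ (fun t => (h1 this t).1) p, hx j τ (fun t => (h1 this t).2) p⟩)
      (fun h => by
        have : e' ≠ 1 := by
          rintro rfl
          exact (hAp p hp).one_lt.ne' (Nat.dvd_one.1 h)
        exact ⟨hx j' σ (fun t => (h2 this t).1) p, hx j' τ (fun t => (h2 this t).2) p⟩))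
    (fun p hp => by
      have h3 : (1 : ℝ) ≤ p := by exact_mod_cast (hAp p hp).one_le
      have h4 := one_le_wt h3 (ext P σ p)
      have h5 := one_le_wt h3 (ext P τ p)
      have h6 : (0 : ℝ) ≤ (if p ∣ e * e' then (p : ℝ) else 1) := by
        split_ifs
        · positivity
        · norm_num
      have h7 : (0 : ℝ) ≤ wt (p : ℝ) (ext P σ p) * wt (p : ℝ) (ext P τ p) := by positivity
      exact mul_nonneg h7 h6)
  have hPpos : ∀ p ∈ P, 0 < p := fun p hp => (hP p hp).1.1.pos
  have eY : ∀ ρ : IP P → Option (Option (Fin k)), ∏ p ∈ A, wt ((p : ℝ) + 1) (ext P ρ p) =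
      mulc (prP P) (fun p => (p : ℝ) + 1) ρ := by
    intro ρ
    rw [mulc_eq]
    exact prod_ext P A hPA ρ ρ (fun p s _ => wt ((p : ℝ) + 1) s) (fun p _ => wt_none _)
  have eR : ∀ ρ : IP P → Option (Option (Fin k)), ∏ p ∈ A, wt (p : ℝ) (ext P ρ p) =
      Real.exp (lgt (prP P) ρ) := by
    intro ρ
    rw [← lgt_eq P hPpos]
    exact prod_ext P A hPA ρ ρ (fun p s _ => wt (p : ℝ) s) (fun p _ => wt_none _)
  have eH : ∀ (ρ : IP P → Option (Option (Fin k))) (n : ℤ), ∏ p ∈ A, hz u w p n (ext P ρ p) =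
      ∏ t : IP P, hz u w (prP P t) n (ρ t) := by
    intro ρ n
    exact prod_ext P A hPA ρ ρ (fun p s _ => hz u w p n s) (fun p _ => rfl)
  have eM : ∏ p ∈ A, (if p ∣ e * e' then sg (ext P σ p) * sg (ext P τ p) else
          g1 p (ext P σ p) (ext P τ p)) =
      ∏ t : IP P, (if prP P t ∣ e * e' then sg (σ t) * sg (τ t) else
        g1 (prP P t) (σ t) (τ t)) := by
    refine prod_ext P A hPA σ τ
      (fun p s s' => if p ∣ e * e' then sg s * sg s' else g1 p s s') (fun p _ => ?_)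
    split_ifs
    · simp [sg]
    · simp [g1]
  refine Ex_congr hprod (fun p hp => (hA p hp).2) ?_ ?_ ?_ ?_
  · rw [prod_mul_distrib, eY, eY]
  · rw [prod_mul_distrib, prod_mul_distrib, eR, eR, prod_id (e * e') hsqm A hEA hAp, ← Real.exp_add]
    push_cast
    refine mul_le_mul_of_nonneg_right (Real.exp_le_exp.2 (by linarith)) (by positivity)
  · intro n
    rw [prod_mul_distrib, prod_mul_distrib, prod_mul_distrib, eH, eH]
    congr 2
    · exact (sq_dvd e hsq (u j * n + w j) A he1).symm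
    · exact (sq_dvd e' hsq' (u j' * n + w j') A he2).symm
  · rw [prod_mul_distrib, prod_inv (e * e') hsqm A hEA hAp, eM]
    push_cast
    rfl

end asm

theorem main (hE : St_EXM) : St_FT1 := by
  classical
  intro k u w P c j j' e e' Rc S hjj hP hsq hsq' hpr hlg hcj hcj'
  constructor
  · intro hnc n hn
    obtain ⟨l, hl, hle, hle'⟩ := Nat.Prime.not_coprime_iff_dvd.1 hnc
    have hG := (hpr l hl (hle.mul_right e')).1
    exact Ind_disj hG hjj n ⟨(Int.natCast_dvd_natCast.2 hle).trans hn.1,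
      (Int.natCast_dvd_natCast.2 hle').trans hn.2⟩
  · intro hcop
    have hs := hE.2.1 S ((IP P → Option (Option (Fin k))) × (IP P → Option (Option (Fin k))))
      (univ.filter (fun x => c x.1 ≠ 0 ∧ c x.2 ≠ 0)) (fun x => c x.1 * c x.2)
      (fun x => mulc (prP P) (fun p => (p : ℝ) + 1) x.1 * mulc (prP P) (fun p => (p : ℝ) + 1) x.2)
      (Real.exp (2 * Rc) * (e * e'))
      (fun x n => (∏ t : IP P, hz u w (prP P t) n (x.1 t)) *
        (∏ t : IP P, hz u w (prP P t) n (x.2 t)) *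
        ((if (e : ℤ) ∣ u j * n + w j then 1 else 0) *
          (if (e' : ℤ) ∣ u j' * n + w j' then 1 else 0)))
      (fun x => 1 / ((e : ℝ) * e') * ∏ t : IP P, (if prP P t ∣ e * e' then sg (x.1 t) * sg (x.2 t)
        else g1 (prP P t) (x.1 t) (x.2 t)))
      (fun x hx => by
        obtain ⟨_, hx1, hx2⟩ := mem_filter.1 hx
        exact pair hE hP hsq hsq' hpr hcop x.1 x.2 (hlg _ hx1) (hlg _ hx2)
          (fun h t => ⟨hcj h _ hx1 t, hcj h _ hx2 t⟩)
          (fun h t => ⟨hcj' h _ hx1 t, hcj' h _ hx2 t⟩))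
    have hsum : ∀ G : (IP P → Option (Option (Fin k))) × (IP P → Option (Option (Fin k))) → ℝ,
        (∀ x, c x.1 * c x.2 = 0 → G x = 0) →
        ∑ x ∈ univ.filter (fun x => c x.1 ≠ 0 ∧ c x.2 ≠ 0), G x = ∑ σ, ∑ τ, G (σ, τ) := by
      intro G hG
      rw [← Fintype.sum_prod_type]
      refine sum_subset (filter_subset _ _) ?_
      intro x _ hx
      apply hG
      by_contra hc
      exact hx (mem_filter.2 ⟨mem_univ _, left_ne_zero_of_mul hc, right_ne_zero_of_mul hc⟩)
    refine Ex_congr hs (fun _ h => h) ?_ le_rfl ?_ ?_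
    · rw [hsum _ (fun x hx => by rw [hx, abs_zero, zero_mul]), pow_two, sum_mul_sum]
      refine le_of_eq (sum_congr rfl fun σ _ => sum_congr rfl fun τ _ => ?_)
      rw [abs_mul]
      ring
    · intro n
      rw [hsum _ (fun x hx => by rw [hx, zero_mul])]
      unfold FZ
      rw [pow_two, sum_mul_sum, sum_mul]
      refine sum_congr rfl fun σ _ => ?_
      rw [sum_mul]
      refine sum_congr rfl fun τ _ => ?_
      ring
    · rw [hsum _ (fun x hx => by rw [hx, zero_mul])]
      unfold Q1g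
      rw [mul_sum]
      refine sum_congr rfl fun σ _ => ?_
      rw [mul_sum]
      refine sum_congr rfl fun τ _ => ?_
      ring

end Pool.Agent.W885.UBFT1
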