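import Pool.Agent.W550.LG.StmV

/-!
# LG-D2: the middle of the downward swing

Proof of `Pool.Agent.W550.LG.S_D2`.  With `u = -c > 0` and `P = a / u` one has the Riccati equation
`P' = 1 + P ^ 2 + t (lam k) P + th / u`.
-/

open Set Real

set_option maxHeartbeats 4000000

namespace Pool.Agent.W885.LGD2

open Pool.Agent.W550.LG

/-- A continuous function that is strictly inside `[lo, hi]` at `z` whenever it has been inside
`[lo, hi]` up to `z`, stays strictly inside. -/
theorem trap (u : ℝ → ℝ) (x y lo hi : ℝ) (hu : ContinuousOn u (Icc x y))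
    (h : ∀ z ∈ Icc x y, (∀ r ∈ Icc x z, lo ≤ u r ∧ u r ≤ hi) → lo < u z ∧ u z < hi)
    (hx : lo < u x ∧ u x < hi) : ∀ z ∈ Icc x y, lo < u z ∧ u z < hi := by
  by_contra hcon
  push Not at hcon
  obtain ⟨w, hw, hw'⟩ := hcon
  set Z : Set ℝ := Icc x y ∩ u ⁻¹' (Iic lo ∪ Ici hi) with hZ
  have hZc : IsClosed Z :=
    hu.preimage_isClosed_of_isClosed isClosed_Icc (isClosed_Iic.union isClosed_Ici)
  have hwZ : w ∈ Z := by
    refine ⟨hw, ?_⟩
    by_cases h1 : lo < u w
    · right; exact hw' h1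
    · left; exact not_lt.mp h1
  have hbdd : BddBelow Z := ⟨x, fun r hr => hr.1.1⟩
  have hz0 : sInf Z ∈ Z := hZc.csInf_mem ⟨w, hwZ⟩ hbdd
  set z0 := sInf Z with hz0def
  have hlt : ∀ r ∈ Ico x z0, lo ≤ u r ∧ u r ≤ hi := by
    intro r hr
    have hrZ : r ∉ Z := fun hmem => absurd (csInf_le hbdd hmem) (not_le.mpr hr.2)
    by_contra hc
    apply hrZ
    refine ⟨⟨hr.1, hr.2.le.trans hz0.1.2⟩, ?_⟩
    by_cases h1 : lo ≤ u r
    · right
      by_contra h2
      exact hc ⟨h1, (not_le.mp h2).le⟩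
    · left; exact (not_le.mp h1).le
  have hxz : x < z0 := by
    rcases lt_or_eq_of_le hz0.1.1 with h1 | h1
    · exact h1
    · exfalso
      have h2 := hz0.2
      rw [← h1] at h2
      rcases h2 with h2 | h2
      · exact absurd h2 (not_le.mpr hx.1)
      · exact absurd h2 (not_le.mpr hx.2)
  have hall : ∀ r ∈ Icc x z0, lo ≤ u r ∧ u r ≤ hi := by
    have hcl : IsClosed (Icc x z0 ∩ u ⁻¹' (Icc lo hi)) :=
      (hu.mono (Icc_subset_Icc le_rfl hz0.1.2)).preimage_isClosed_of_isClosed isClosed_Icc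
        isClosed_Icc
    have hsub : Ico x z0 ⊆ Icc x z0 ∩ u ⁻¹' (Icc lo hi) := fun r hr =>
      ⟨⟨hr.1, hr.2.le⟩, hlt r hr⟩
    have := closure_minimal hsub hcl
    rw [closure_Ico hxz.ne] at this
    intro r hr
    exact (this hr).2
  have hfin := h z0 hz0.1 hall
  rcases hz0.2 with h2 | h2
  · exact absurd h2 (not_le.mpr hfin.1)
  · exact absurd h2 (not_le.mpr hfin.2)

/-- Lower bounds for the Riccati equation. -/
theorem ric_lower (P m e : ℝ → ℝ) (x z ε : ℝ)
    (hP : ∀ s ∈ Icc x z, HasDerivAt P (1 + P s ^ 2 + m s * P s + e s) s)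
    (hm : ∀ s ∈ Icc x z, m s ≤ 0) (he : ∀ s ∈ Icc x z, |e s| ≤ 1 / 4) (hε : 0 < ε)
    (h0 : -ε ≤ P x) :
    (∀ s ∈ Icc x z, -ε ≤ P s) ∧ (∀ s ∈ Icc x z, x + 2 * ε ≤ s → 0 ≤ P s) := by
  have hcont : ContinuousOn P (Icc x z) := fun s hs => (hP s hs).continuousAt.continuousWithinAt
  have hneg : ∀ s ∈ Icc x z, P s ≤ 0 → 3 / 4 ≤ 1 + P s ^ 2 + m s * P s + e s := by
    intro s hs hPs
    have h1 := hm s hs
    have h2 := abs_le.mp (he s hs)
    nlinarith [sq_nonneg (P s), mul_nonneg_of_nonpos_of_nonpos h1 hPs]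
  constructor
  · intro s hs
    have key := image_le_of_deriv_right_lt_deriv_boundary' (f := fun r => - P r)
      (f' := fun r => -(1 + P r ^ 2 + m r * P r + e r)) (a := x) (b := z) hcont.neg
      (fun r hr => ((hP r ⟨hr.1, hr.2.le⟩).neg).hasDerivWithinAt) (B := fun _ => ε)
      (B' := fun _ => 0) (by simpa using (by linarith : - P x ≤ ε)) continuousOn_const
      (fun r _ => hasDerivWithinAt_const _ _ _) (by
        intro r hr hr2
        have h3 := hneg r ⟨hr.1, hr.2.le⟩ (by linarith)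
        show -(1 + P r ^ 2 + m r * P r + e r) < 0
        linarith) hs
    linarith
  · intro s hs hs2
    -- first step: at `x + 2 ε`
    have hsub : Icc x (x + 2 * ε) ⊆ Icc x z := Icc_subset_Icc le_rfl (hs2.trans hs.2)
    have hx2 : x + 2 * ε ∈ Icc x (x + 2 * ε) := ⟨by linarith, le_rfl⟩
    have key := image_le_of_deriv_right_lt_deriv_boundary' (f := fun r => - P r)
      (f' := fun r => -(1 + P r ^ 2 + m r * P r + e r)) (a := x) (b := x + 2 * ε)
      (hcont.neg.mono hsub)
      (fun r hr => ((hP r (hsub ⟨hr.1, hr.2.le⟩)).neg).hasDerivWithinAt)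
      (B := fun r => ε - (r - x) / 2)
      (B' := fun _ => -(1 / 2)) (by simpa using (by linarith : - P x ≤ ε))
      (by fun_prop)
      (fun r _ => by
        have : HasDerivAt (fun r : ℝ => ε - (r - x) / 2) (-(1 / 2)) r := by
          have h5 := (((hasDerivAt_id r).sub_const x).div_const 2).const_sub ε
          simpa using h5
        exact this.hasDerivWithinAt) (by
        intro r hr hr2
        have h3 := hneg r (hsub ⟨hr.1, hr.2.le⟩) (by linarith [hr.2])
        show -(1 + P r ^ 2 + m r * P r + e r) < -(1 / 2)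
        linarith) hx2
    have hP2 : 0 ≤ P (x + 2 * ε) := by
      have : ε - (x + 2 * ε - x) / 2 = 0 := by ring
      linarith
    have hsub2 : Icc (x + 2 * ε) z ⊆ Icc x z := Icc_subset_Icc (by linarith) le_rfl
    have key2 := image_le_of_deriv_right_lt_deriv_boundary' (f := fun r => - P r)
      (f' := fun r => -(1 + P r ^ 2 + m r * P r + e r)) (a := x + 2 * ε) (b := z)
      (hcont.neg.mono hsub2)
      (fun r hr => ((hP r (hsub2 ⟨hr.1, hr.2.le⟩)).neg).hasDerivWithinAt) (B := fun _ => (0 : ℝ))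
      (B' := fun _ => 0) (by simpa using hP2) continuousOn_const
      (fun r _ => hasDerivWithinAt_const _ _ _) (by
        intro r hr hr2
        have h3 := hneg r (hsub2 ⟨hr.1, hr.2.le⟩) (by linarith)
        show -(1 + P r ^ 2 + m r * P r + e r) < 0
        linarith) (x := s) ⟨hs2, hs.2⟩
    linarith

/-- The tangent barrier: if `P` is at most `tan ε` at `s'`, then on an interval of length at most
`Φ` it stays below `tan (Φ + 2 ε)`. -/
theorem ric_tan (P m e : ℝ → ℝ) (x z Φ ε η : ℝ)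
    (hP : ∀ s ∈ Icc x z, HasDerivAt P (1 + P s ^ 2 + m s * P s + e s) s)
    (hm : ∀ s ∈ Icc x z, m s ≤ 0) (he : ∀ s ∈ Icc x z, |e s| ≤ η / 2) (hε : 0 < ε) (hη : 0 < η)
    (hηΦ : η * Φ ≤ ε) (hΦ : Φ + 2 * ε < π / 2) (hzx : z - x ≤ Φ)
    (h0 : P x ≤ tan ε) :
    ∀ s ∈ Icc x z, P s ≤ tan (ε + (1 + η) * (s - x)) := by
  have hcont : ContinuousOn P (Icc x z) := fun s hs => (hP s hs).continuousAt.continuousWithinAt
  have hφ : ∀ r ∈ Icc x z, 0 < ε + (1 + η) * (r - x) ∧ ε + (1 + η) * (r - x) < π / 2 := by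
    intro r hr
    have h1 : 0 ≤ r - x := by linarith [hr.1]
    have h2 : r - x ≤ Φ := by linarith [hr.2]
    have h3 : 0 ≤ (1 + η) * (r - x) := by positivity
    have h4 : (1 + η) * (r - x) ≤ (1 + η) * Φ := by
      apply mul_le_mul_of_nonneg_left h2; linarith
    constructor
    · linarith
    · nlinarith
  have hder : ∀ r ∈ Icc x z, HasDerivAt (fun r => tan (ε + (1 + η) * (r - x)))
      ((1 + η) * (1 + tan (ε + (1 + η) * (r - x)) ^ 2)) r := by
    intro r hr
    obtain ⟨h1, h2⟩ := hφ r hr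
    have hcos : cos (ε + (1 + η) * (r - x)) ≠ 0 :=
      (cos_pos_of_mem_Ioo ⟨by linarith [pi_pos], h2⟩).ne'
    have h3 : HasDerivAt (fun r : ℝ => ε + (1 + η) * (r - x)) (1 + η) r := by
      have h5 := ((((hasDerivAt_id r).sub_const x).const_mul (1 + η)).const_add ε)
      simpa using h5
    have h4 := (Real.hasDerivAt_tan hcos).comp r h3
    have h5 : 1 / cos (ε + (1 + η) * (r - x)) ^ 2 * (1 + η) =
        (1 + η) * (1 + tan (ε + (1 + η) * (r - x)) ^ 2) := by
      rw [tan_eq_sin_div_cos]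
      field_simp
      rw [cos_sq_add_sin_sq]
    rw [← h5]
    exact h4
  have hcontB : ContinuousOn (fun r => tan (ε + (1 + η) * (r - x))) (Icc x z) :=
    fun s hs => (hder s hs).continuousAt.continuousWithinAt
  intro s hs
  refine image_le_of_deriv_right_lt_deriv_boundary' (f := P)
      (f' := fun r => (1 + P r ^ 2 + m r * P r + e r)) (a := x) (b := z) hcont
      (fun r hr => ((hP r ⟨hr.1, hr.2.le⟩)).hasDerivWithinAt)
      (B := fun r => tan (ε + (1 + η) * (r - x)))
      (B' := fun r => (1 + η) * (1 + tan (ε + (1 + η) * (r - x)) ^ 2))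
      (by simpa using h0) hcontB
      (fun r hr => (hder r ⟨hr.1, hr.2.le⟩).hasDerivWithinAt) ?_ hs
  intro r hr hr2
  have hr' : r ∈ Icc x z := ⟨hr.1, hr.2.le⟩
  obtain ⟨h1, h2⟩ := hφ r hr'
  have h3 : 0 < tan (ε + (1 + η) * (r - x)) := tan_pos_of_pos_of_lt_pi_div_two h1 h2
  show 1 + P r ^ 2 + m r * P r + e r < (1 + η) * (1 + tan (ε + (1 + η) * (r - x)) ^ 2)
  rw [← hr2]
  rw [← hr2] at h3
  have h4 := hm r hr'
  have h5 := (abs_le.mp (he r hr')).2
  have h6 : m r * P r ≤ 0 := mul_nonpos_of_nonpos_of_nonneg h4 h3.le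
  nlinarith [sq_nonneg (P r), mul_nonneg hη.le (sq_nonneg (P r))]

/-- The upper bound for the Riccati equation. -/
theorem ric_upper (P lam Lam k e : ℝ → ℝ) (x y z Φ ε η ω t : ℝ)
    (hP : ∀ s ∈ Icc x z, HasDerivAt P (1 + P s ^ 2 + t * (lam s * k s) * P s + e s) s)
    (hzy : z ≤ y) (ht : 0 < t)
    (hlam : ∀ s ∈ Icc x z, lam s ≤ 0) (hLam : ∀ s, HasDerivAt Lam (lam s) s)
    (hk : ∀ s ∈ Icc x z, 1 / 2 ≤ k s)
    (he : ∀ s ∈ Icc x z, |e s| ≤ η / 2) (hε : 0 < ε) (hη : 0 < η) (hη1 : η ≤ 1) (hΦ0 : 0 < Φ)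
    (hηΦ : η * Φ ≤ ε) (hΦ : Φ + 2 * ε < π / 2)
    (hdrop : ∀ s, x ≤ s → s + Φ ≤ y → Lam (s + Φ) ≤ Lam s - ω)
    (htω : 2 * (2 / tan ε + tan (Φ + 2 * ε)) * Φ < t * ω)
    (h0 : P x ≤ tan ε) :
    ∀ s ∈ Icc x z, P s ≤ tan (Φ + 2 * ε) := by
  have hcont : ContinuousOn P (Icc x z) := fun s hs => (hP s hs).continuousAt.continuousWithinAt
  have hm : ∀ s ∈ Icc x z, t * (lam s * k s) ≤ 0 := by
    intro s hs
    have h1 := hlam s hs
    have h2 := hk s hs
    have h3 : lam s * k s ≤ 0 := mul_nonpos_of_nonpos_of_nonneg h1 (by linarith)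
    exact mul_nonpos_of_nonneg_of_nonpos ht.le h3
  have htε : 0 < tan ε := tan_pos_of_pos_of_lt_pi_div_two hε (by linarith)
  have hmono : ∀ p q : ℝ, 0 < p → p ≤ q → q < π / 2 → tan p ≤ tan q := by
    intro p q hp hpq hq
    rcases eq_or_lt_of_le hpq with h | h
    · rw [h]
    · exact (tan_lt_tan_of_nonneg_of_lt_pi_div_two hp.le hq h).le
  have hTε : tan ε ≤ tan (Φ + 2 * ε) := hmono _ _ hε (by linarith) hΦ
  intro s hs
  by_contra hcon
  push Not at hcon
  -- last point with `P ≤ tan ε`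
  set Z : Set ℝ := Icc x s ∩ P ⁻¹' (Iic (tan ε)) with hZ
  have hcs : ContinuousOn P (Icc x s) := hcont.mono (Icc_subset_Icc le_rfl hs.2)
  have hZc : IsClosed Z := hcs.preimage_isClosed_of_isClosed isClosed_Icc isClosed_Iic
  have hxZ : x ∈ Z := ⟨⟨le_rfl, hs.1⟩, h0⟩
  have hbdd : BddAbove Z := ⟨s, fun r hr => hr.1.2⟩
  have hsZ : sSup Z ∈ Z := hZc.csSup_mem ⟨x, hxZ⟩ hbdd
  set s' := sSup Z with hs'
  have hs's : s' < s := by
    rcases lt_or_eq_of_le hsZ.1.2 with h1 | h1
    · exact h1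
    · exfalso
      have h2 : P s' ≤ tan ε := hsZ.2
      rw [h1] at h2
      linarith
  have hgt : ∀ r ∈ Ioc s' s, tan ε ≤ P r := by
    intro r hr
    by_contra hc
    have : r ∈ Z := ⟨⟨hsZ.1.1.trans hr.1.le, hr.2⟩, (not_le.mp hc).le⟩
    exact absurd (le_csSup hbdd this) (not_le.mpr hr.1)
  have hge : ∀ r ∈ Icc s' s, tan ε ≤ P r := by
    have hcl : IsClosed (Icc s' s ∩ P ⁻¹' (Ici (tan ε))) :=
      (hcs.mono (Icc_subset_Icc hsZ.1.1 le_rfl)).preimage_isClosed_of_isClosed isClosed_Icc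
        isClosed_Ici
    have hsub : Ioc s' s ⊆ Icc s' s ∩ P ⁻¹' (Ici (tan ε)) := fun r hr =>
      ⟨⟨hr.1.le, hr.2⟩, hgt r hr⟩
    have := closure_minimal hsub hcl
    rw [closure_Ioc hs's.ne] at this
    intro r hr
    exact (this hr).2
  have hPs' : P s' = tan ε := le_antisymm hsZ.2 (hge s' ⟨le_rfl, hs's.le⟩)
  -- the barrier on `[s', w]` when `w ≤ s' + Φ`
  have hbar : ∀ w ∈ Icc s' s, w - s' ≤ Φ → P w ≤ tan (Φ + 2 * ε) := by
    intro w hw hwΦ
    have hsub : Icc s' w ⊆ Icc x z :=
      Icc_subset_Icc hsZ.1.1 (hw.2.trans hs.2)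
    have h1 := ric_tan P (fun s => t * (lam s * k s)) e s' w Φ ε η
      (fun r hr => hP r (hsub hr)) (fun r hr => hm r (hsub hr)) (fun r hr => he r (hsub hr))
      hε hη hηΦ hΦ hwΦ hPs'.le w ⟨hw.1, le_rfl⟩
    refine h1.trans (hmono _ _ ?_ ?_ hΦ)
    · have : 0 ≤ (1 + η) * (w - s') := by
        apply mul_nonneg (by linarith); linarith [hw.1]
      linarith
    · have : (1 + η) * (w - s') ≤ (1 + η) * Φ := by
        apply mul_le_mul_of_nonneg_left hwΦ; linarith
      nlinarith
  rcases le_or_gt (s - s') Φ with hcase | hcase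
  · have := hbar s ⟨hs's.le, le_rfl⟩ hcase
    linarith
  · -- the long case
    set w := s' + Φ with hw
    have hws : w ≤ s := by linarith
    have hs'w : s' < w := by linarith
    set T := tan (Φ + 2 * ε) with hT
    set K := 2 / tan ε + T with hK
    have hsub : Icc s' w ⊆ Icc x z := Icc_subset_Icc hsZ.1.1 (hws.trans hs.2)
    have hbd : ∀ r ∈ Icc s' w, tan ε ≤ P r ∧ P r ≤ T := by
      intro r hr
      exact ⟨hge r ⟨hr.1, hr.2.trans hws⟩, hbar r ⟨hr.1, hr.2.trans hws⟩ (by linarith [hr.2])⟩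
    -- the function `G`
    have hG : ∀ r ∈ Icc s' w, HasDerivAt (fun r => P r * exp (-(t / 2) * Lam r - K * r))
        ((1 + P r ^ 2 + t * (lam r * k r) * P r + e r) * exp (-(t / 2) * Lam r - K * r) +
          P r * (exp (-(t / 2) * Lam r - K * r) * (-(t / 2) * lam r - K * 1))) r := by
      intro r hr
      have h1 := hP r (hsub hr)
      have h2 : HasDerivAt (fun r => -(t / 2) * Lam r - K * r) (-(t / 2) * lam r - K * 1) r :=
        ((hLam r).const_mul (-(t / 2))).sub ((hasDerivAt_id r).const_mul K)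
      exact h1.mul h2.exp
    have hGanti : AntitoneOn (fun r => P r * exp (-(t / 2) * Lam r - K * r)) (Icc s' w) := by
      apply antitoneOn_of_deriv_nonpos (convex_Icc _ _)
      · exact fun r hr => (hG r hr).continuousAt.continuousWithinAt
      · intro r hr
        rw [interior_Icc] at hr
        exact (hG r ⟨hr.1.le, hr.2.le⟩).differentiableAt.differentiableWithinAt
      · intro r hr
        rw [interior_Icc] at hr
        have hr' : r ∈ Icc s' w := ⟨hr.1.le, hr.2.le⟩
        rw [(hG r hr').deriv]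
        have hE : 0 < exp (-(t / 2) * Lam r - K * r) := exp_pos _
        have h1 : (1 + P r ^ 2 + t * (lam r * k r) * P r + e r) +
            P r * (-(t / 2) * lam r - K * 1) ≤ 0 := by
          obtain ⟨h2, h3⟩ := hbd r hr'
          have h4 := hlam r (hsub hr')
          have h5 := hk r (hsub hr')
          have h6 := (abs_le.mp (he r (hsub hr'))).2
          have hP0 : 0 < P r := lt_of_lt_of_le htε h2
          -- `2 ≤ 2 / tan ε * P r`
          have h7 : 2 ≤ 2 / tan ε * P r := by
            rw [div_mul_eq_mul_div, le_div_iff₀ htε]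
            linarith
          have h8 : P r ^ 2 ≤ T * P r := by
            rw [sq]; exact mul_le_mul_of_nonneg_right h3 hP0.le
          have h9 : t * (lam r * k r) * P r ≤ (t / 2) * lam r * P r := by
            have h10 : lam r * k r ≤ lam r * (1 / 2) := mul_le_mul_of_nonpos_left h5 h4
            have h11 : t * (lam r * k r) ≤ t * (lam r * (1 / 2)) :=
              mul_le_mul_of_nonneg_left h10 ht.le
            have h12 := mul_le_mul_of_nonneg_right h11 hP0.le
            linarith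
          rw [hK]
          nlinarith
        have h2 : (1 + P r ^ 2 + t * (lam r * k r) * P r + e r) *
            exp (-(t / 2) * Lam r - K * r) +
            P r * (exp (-(t / 2) * Lam r - K * r) * (-(t / 2) * lam r - K * 1)) =
            ((1 + P r ^ 2 + t * (lam r * k r) * P r + e r) +
            P r * (-(t / 2) * lam r - K * 1)) * exp (-(t / 2) * Lam r - K * r) := by ring
        rw [h2]
        exact mul_nonpos_of_nonpos_of_nonneg h1 hE.le
    have hfin := hGanti ⟨le_rfl, hs'w.le⟩ ⟨hs'w.le, le_rfl⟩ hs'w.le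
    simp only at hfin
    rw [hPs'] at hfin
    have h1 : tan ε * exp (-(t / 2) * Lam w - K * w) ≤ tan ε * exp (-(t / 2) * Lam s' - K * s') :=
      (mul_le_mul_of_nonneg_right (hbd w ⟨hs'w.le, le_rfl⟩).1 (exp_pos _).le).trans hfin
    have h2 : exp (-(t / 2) * Lam w - K * w) ≤ exp (-(t / 2) * Lam s' - K * s') :=
      le_of_mul_le_mul_left h1 htε
    rw [exp_le_exp] at h2
    have h3 := hdrop s' hsZ.1.1 (by linarith [hs.2])
    have h4 : K * w - K * s' = K * Φ := by rw [hw]; ring
    have h5 : 2 * K * Φ < t * ω := htω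
    have h6 : t * ω ≤ t * (Lam s' - Lam w) := mul_le_mul_of_nonneg_left (by linarith) ht.le
    nlinarith

/-- The drop of `Lam` is uniform. -/
theorem drop (x y Φ : ℝ) (Lam : ℝ → ℝ) (hL : Continuous Lam)
    (h : ∀ s, x ≤ s → s + Φ ≤ y → Lam (s + Φ) < Lam s) :
    ∃ ω : ℝ, 0 < ω ∧ ∀ s, x ≤ s → s + Φ ≤ y → Lam (s + Φ) ≤ Lam s - ω := by
  by_cases hxy : x ≤ y - Φ
  · have hc : ContinuousOn (fun s => Lam s - Lam (s + Φ)) (Icc x (y - Φ)) := by
      apply Continuous.continuousOn
      exact hL.sub (hL.comp (continuous_id.add continuous_const))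
    obtain ⟨s0, hs0, hmin⟩ := isCompact_Icc.exists_isMinOn (nonempty_Icc.mpr hxy) hc
    refine ⟨Lam s0 - Lam (s0 + Φ), ?_, ?_⟩
    · have := h s0 hs0.1 (by linarith [hs0.2])
      linarith
    · intro s h1 h2
      have := hmin (a := s) ⟨h1, by linarith⟩
      change Lam s0 - Lam (s0 + Φ) ≤ Lam s - Lam (s + Φ) at this
      linarith
  · refine ⟨1, one_pos, ?_⟩
    intro s h1 h2
    exfalso
    apply hxy
    linarith

/-- **LG-D2.** -/
theorem s_D2 : S_D2 := by
  intro x y Φ lam Lam hlamc hLam hxy hlam hΦ0 hΦ hdrop C hC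
  have hLc : Continuous Lam := continuous_iff_continuousAt.mpr fun s => (hLam s).continuousAt
  obtain ⟨ω, hω, hω2⟩ := drop x y Φ Lam hLc hdrop
  obtain ⟨K0, hK0⟩ := (isCompact_Icc (a := x) (b := y)).exists_bound_of_continuousOn
    hlamc.continuousOn
  refine ⟨(π / 2 - Φ) / 8, by linarith, ?_⟩
  intro ε hε hεle
  have hΦε : Φ + 2 * ε < π / 2 := by linarith
  set T := tan (Φ + 2 * ε) with hT
  have hT0 : 0 < T := tan_pos_of_pos_of_lt_pi_div_two (by linarith) hΦε
  have htε : 0 < tan ε := tan_pos_of_pos_of_lt_pi_div_two hε (by linarith)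
  have hεtan : ε ≤ tan ε := (lt_tan hε (by linarith)).le
  set C2 := exp ((T + ε) * (y - x)) + T + 1 with hC2
  have hE1 : 1 ≤ exp ((T + ε) * (y - x)) :=
    one_le_exp (mul_nonneg (by linarith) (by linarith))
  have hC21 : 1 < C2 := by linarith
  refine ⟨C2, hC21.le, ?_⟩
  intro c1 C3 hc1 hC3
  -- `η`
  set η := min (1 / 2) (ε / Φ) with hη
  have hη0 : 0 < η := by
    rw [hη]; exact lt_min (by norm_num) (div_pos hε hΦ0)
  have hη1 : η ≤ 1 / 2 := min_le_left _ _
  have hηΦ : η * Φ ≤ ε := by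
    have h1 : η ≤ ε / Φ := min_le_right _ _
    rwa [le_div_iff₀ hΦ0] at h1
  set D := C * |K0| * C2 ^ 2 * C3 / c1 with hD
  have hD0 : 0 ≤ D := by positivity
  refine ⟨max 1 (max (2 * (2 / tan ε + T) * Φ / ω + 1) ((D / (η / 2)) ^ 2)), le_max_left _ _, ?_⟩
  intro t ht k c a th N s1 hN hs1 hSys hcs1 has1 hlow hupp
  have ht1 : 1 ≤ t := (le_max_left _ _).trans ht
  have ht2 : 2 * (2 / tan ε + T) * Φ / ω + 1 ≤ t :=
    (le_max_left _ _).trans ((le_max_right _ _).trans ht)
  have ht3 : (D / (η / 2)) ^ 2 ≤ t := (le_max_right _ _).trans ((le_max_right _ _).trans ht)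
  have ht0 : 0 < t := by linarith
  have hst : 0 < sqrt t := sqrt_pos.mpr ht0
  have hDs : D / sqrt t ≤ η / 2 := by
    have h1 : D / (η / 2) ≤ sqrt t := by
      apply le_sqrt_of_sq_le ht3
    rw [div_le_iff₀ (by positivity)] at h1
    rw [div_le_iff₀ hst]
    linarith
  have htω : 2 * (2 / tan ε + T) * Φ < t * ω := by
    have h1 : 2 * (2 / tan ε + T) * Φ / ω < t := by linarith
    rwa [div_lt_iff₀ hω] at h1
  -- `u = - c`
  set U := -c s1 with hU
  have hU0 : 0 < U := by rw [hU]; linarith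
  have hUabs : |c s1| = U := by rw [hU, abs_of_neg hcs1]
  rw [hUabs] at hlow hupp has1
  have hcc : ContinuousOn (fun r => - c r) (Icc s1 y) := fun r hr =>
    (hSys.dc r hr).continuousAt.neg.continuousWithinAt
  -- the core estimate
  have core : ∀ z ∈ Icc s1 y, (∀ r ∈ Icc s1 z, U / C2 ≤ -c r ∧ -c r ≤ C2 * U) →
      (∀ s ∈ Icc s1 z, -ε ≤ a s / (-c s)) ∧
      (∀ s ∈ Icc s1 z, s1 + 2 * ε ≤ s → 0 ≤ a s / (-c s)) ∧
      (∀ s ∈ Icc s1 z, a s / (-c s) ≤ T) ∧
      (∀ s ∈ Icc s1 z, U * exp (-(T * (s - s1))) ≤ -c s ∧ -c s ≤ U * exp (ε * (s - s1))) := by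
    intro z hz hall
    have hsub : Icc s1 z ⊆ Icc s1 y := Icc_subset_Icc le_rfl hz.2
    have hsubx : Icc s1 z ⊆ Icc x y := Icc_subset_Icc hs1.1 hz.2
    have hUC : 0 < U / C2 := div_pos hU0 (by linarith)
    have hpos : ∀ r ∈ Icc s1 z, 0 < -c r := fun r hr => lt_of_lt_of_le hUC (hall r hr).1
    -- error bound
    have herr : ∀ r ∈ Icc s1 z, |th r / (-c r)| ≤ η / 2 := by
      intro r hr
      have hp := hpos r hr
      have hM : N ≤ C2 * C3 * N := by
        have : 1 ≤ C2 * C3 := by nlinarith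
        nlinarith
      have h1 := hSys.th_le r (hsub hr) (C2 * C3 * N) hM (by
        intro q hq
        have hq' : q ∈ Icc s1 z := ⟨hq.1, hq.2.trans hr.2⟩
        rw [abs_of_neg (by linarith [hpos q hq'])]
        calc -c q ≤ C2 * U := (hall q hq').2
          _ ≤ C2 * (C3 * N) := mul_le_mul_of_nonneg_left hupp (by linarith)
          _ = C2 * C3 * N := by ring)
      have h2 : |lam r| ≤ |K0| := by
        have := hK0 r (hsubx hr)
        rw [Real.norm_eq_abs] at this
        exact this.trans (le_abs_self _)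
      have h3 : |th r| ≤ C / t * |K0| * (C2 * C3 * N) := by
        refine h1.trans ?_
        apply mul_le_mul_of_nonneg_right _ (by positivity)
        exact mul_le_mul_of_nonneg_left h2 (by positivity)
      have h4 : N ≤ C2 * (-c r) * sqrt t / c1 := by
        rw [le_div_iff₀ hc1]
        have h5 : c1 * N ≤ U * sqrt t := by
          have : c1 / sqrt t * N = c1 * N / sqrt t := by ring
          rw [this, div_le_iff₀ hst] at hlow
          exact hlow
        have h6 : U ≤ C2 * (-c r) := by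
          have := (hall r hr).1
          rw [div_le_iff₀ (by linarith)] at this
          linarith
        have h7 : U * sqrt t ≤ C2 * (-c r) * sqrt t := mul_le_mul_of_nonneg_right h6 hst.le
        linarith
      have h5 : |th r| ≤ C / t * |K0| * (C2 * C3 * (C2 * (-c r) * sqrt t / c1)) := by
        refine h3.trans ?_
        apply mul_le_mul_of_nonneg_left _ (by positivity)
        exact mul_le_mul_of_nonneg_left h4 (by positivity)
      have h6 : C / t * |K0| * (C2 * C3 * (C2 * (-c r) * sqrt t / c1)) =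
          D / sqrt t * (-c r) := by
        have h7 : t = sqrt t * sqrt t := (mul_self_sqrt ht0.le).symm
        rw [hD]
        rw [div_mul_eq_mul_div, div_mul_eq_mul_div, div_mul_eq_mul_div]
        rw [div_eq_div_iff ht0.ne' hst.ne']
        field_simp
        rw [sq_sqrt ht0.le]
      rw [abs_div, abs_of_pos hp, div_le_iff₀ hp]
      refine h5.trans ?_
      rw [h6]
      exact mul_le_mul_of_nonneg_right hDs hp.le
    -- Riccati
    have hP : ∀ r ∈ Icc s1 z, HasDerivAt (fun r => a r / (-c r))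
        (1 + (a r / (-c r)) ^ 2 + t * (lam r * k r) * (a r / (-c r)) + th r / (-c r)) r := by
      intro r hr
      have hp := hpos r hr
      have hne : c r ≠ 0 := by linarith
      have h1 : HasDerivAt (fun r => a r / (-c r))
          (((t * (lam r * k r) * a r - c r + th r) * (-c r) - a r * (-a r)) / (-c r) ^ 2) r :=
        (hSys.da r (hsub hr)).div (hSys.dc r (hsub hr)).neg hp.ne'
      have h2 : ((t * (lam r * k r) * a r - c r + th r) * (-c r) - a r * (-a r)) / (-c r) ^ 2 =
          1 + (a r / (-c r)) ^ 2 + t * (lam r * k r) * (a r / (-c r)) + th r / (-c r) := by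
        field_simp
        ring
      rw [← h2]
      exact h1
    have hlam' : ∀ s ∈ Icc s1 z, lam s ≤ 0 := fun s hs => hlam s (hsubx hs)
    have hk' : ∀ s ∈ Icc s1 z, 1 / 2 ≤ k s := fun s hs => hSys.le_k s (hsub hs)
    have hm : ∀ s ∈ Icc s1 z, t * (lam s * k s) ≤ 0 := by
      intro s hs
      have h1 := hlam' s hs
      have h2 := hk' s hs
      have h3 : lam s * k s ≤ 0 := mul_nonpos_of_nonpos_of_nonneg h1 (by linarith)
      exact mul_nonpos_of_nonneg_of_nonpos ht0.le h3
    have hP0 : |a s1 / (-c s1)| ≤ ε := by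
      rw [abs_div, abs_of_pos (by linarith : 0 < -c s1), div_le_iff₀ (by linarith)]
      exact has1
    have hlowB := ric_lower (fun r => a r / (-c r)) (fun s => t * (lam s * k s))
      (fun r => th r / (-c r)) s1 z ε hP hm (fun s hs => (herr s hs).trans (by linarith)) hε
      (abs_le.mp hP0).1
    have huppB := ric_upper (fun r => a r / (-c r)) lam Lam k
      (fun r => th r / (-c r)) s1 y z Φ ε η ω t hP hz.2 ht0 hlam' hLam hk' herr hε hη0
      (by linarith) hΦ0 hηΦ hΦε (fun s h1 h2 => hω2 s (hs1.1.trans h1) h2) htω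
      ((abs_le.mp hP0).2.trans hεtan)
    refine ⟨hlowB.1, hlowB.2, huppB, ?_⟩
    intro s hs
    have hcz : ContinuousOn c (Icc s1 z) := fun r hr =>
      (hSys.dc r (hsub hr)).continuousAt.continuousWithinAt
    constructor
    · -- `-c * exp (T (s - s1))` is nondecreasing
      have hd : ∀ r ∈ Icc s1 z, HasDerivAt (fun r => -c r * exp (T * (r - s1)))
          (-a r * exp (T * (r - s1)) + -c r * (exp (T * (r - s1)) * T)) r := by
        intro r hr
        have h2 : HasDerivAt (fun r => T * (r - s1)) T r := by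
          simpa using (((hasDerivAt_id r).sub_const s1).const_mul T)
        exact ((hSys.dc r (hsub hr)).neg).mul h2.exp
      have hmono : MonotoneOn (fun r => -c r * exp (T * (r - s1))) (Icc s1 z) := by
        apply monotoneOn_of_deriv_nonneg (convex_Icc _ _)
        · exact fun r hr => (hd r hr).continuousAt.continuousWithinAt
        · intro r hr
          rw [interior_Icc] at hr
          exact (hd r ⟨hr.1.le, hr.2.le⟩).differentiableAt.differentiableWithinAt
        · intro r hr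
          rw [interior_Icc] at hr
          have hr' : r ∈ Icc s1 z := ⟨hr.1.le, hr.2.le⟩
          rw [(hd r hr').deriv]
          have hp := hpos r hr'
          have h3 := huppB r hr'
          rw [div_le_iff₀ hp] at h3
          have h4 : -a r * exp (T * (r - s1)) + -c r * (exp (T * (r - s1)) * T) =
            (T * (-c r) - a r) * exp (T * (r - s1)) := by ring
          rw [h4]
          exact mul_nonneg (by linarith) (exp_pos _).le
      have h5 := hmono ⟨le_rfl, hs.1.trans hs.2⟩ hs hs.1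
      simp only [sub_self, mul_zero, exp_zero, mul_one] at h5
      rw [exp_neg, ← div_eq_mul_inv, div_le_iff₀ (exp_pos _)]
      exact h5
    · have hd : ∀ r ∈ Icc s1 z, HasDerivAt (fun r => -c r * exp (-ε * (r - s1)))
          (-a r * exp (-ε * (r - s1)) + -c r * (exp (-ε * (r - s1)) * (-ε))) r := by
        intro r hr
        have h2 : HasDerivAt (fun r => -ε * (r - s1)) (-ε) r := by
          simpa using (((hasDerivAt_id r).sub_const s1).const_mul (-ε))
        exact ((hSys.dc r (hsub hr)).neg).mul h2.exp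
      have hanti : AntitoneOn (fun r => -c r * exp (-ε * (r - s1))) (Icc s1 z) := by
        apply antitoneOn_of_deriv_nonpos (convex_Icc _ _)
        · exact fun r hr => (hd r hr).continuousAt.continuousWithinAt
        · intro r hr
          rw [interior_Icc] at hr
          exact (hd r ⟨hr.1.le, hr.2.le⟩).differentiableAt.differentiableWithinAt
        · intro r hr
          rw [interior_Icc] at hr
          have hr' : r ∈ Icc s1 z := ⟨hr.1.le, hr.2.le⟩
          rw [(hd r hr').deriv]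
          have hp := hpos r hr'
          have h3 := hlowB.1 r hr'
          rw [le_div_iff₀ hp] at h3
          have h4 : -a r * exp (-ε * (r - s1)) + -c r * (exp (-ε * (r - s1)) * (-ε)) =
            (-a r + -ε * (-c r)) * exp (-ε * (r - s1)) := by ring
          rw [h4]
          exact mul_nonpos_of_nonpos_of_nonneg (by linarith) (exp_pos _).le
      have h5 := hanti ⟨le_rfl, hs.1.trans hs.2⟩ hs hs.1
      simp only [sub_self, mul_zero, exp_zero, mul_one] at h5
      have h6 : -ε * (s - s1) = -(ε * (s - s1)) := by ring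
      rw [h6, exp_neg, ← div_eq_mul_inv, div_le_iff₀ (exp_pos _)] at h5
      exact h5
  -- strict inequalities
  have strict : ∀ z ∈ Icc s1 y, (∀ r ∈ Icc s1 z, U / C2 ≤ -c r ∧ -c r ≤ C2 * U) →
      U / C2 < -c z ∧ -c z < C2 * U := by
    intro z hz hall
    obtain ⟨-, -, -, h4⟩ := core z hz hall
    obtain ⟨h5, h6⟩ := h4 z ⟨hz.1, le_rfl⟩
    have hzx : z - s1 ≤ y - x := by linarith [hz.2, hs1.1]
    have hz0 : 0 ≤ z - s1 := by linarith [hz.1]
    have hexp1 : exp (T * (z - s1)) ≤ exp ((T + ε) * (y - x)) := by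
      apply exp_le_exp.mpr
      have h7 : T * (z - s1) ≤ T * (y - x) := mul_le_mul_of_nonneg_left hzx hT0.le
      nlinarith
    have hexp2 : exp (ε * (z - s1)) ≤ exp ((T + ε) * (y - x)) := by
      apply exp_le_exp.mpr
      have h7 : ε * (z - s1) ≤ ε * (y - x) := mul_le_mul_of_nonneg_left hzx hε.le
      nlinarith
    constructor
    · have h8 : exp (T * (z - s1)) < C2 := by linarith
      refine lt_of_lt_of_le ?_ h5
      rw [exp_neg, ← div_eq_mul_inv]
      exact div_lt_div_of_pos_left hU0 (exp_pos _) h8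
    · refine lt_of_le_of_lt h6 ?_
      rw [mul_comm C2 U]
      apply mul_lt_mul_of_pos_left _ hU0
      linarith
  have htrap := trap (fun r => -c r) s1 y (U / C2) (C2 * U) hcc strict (by
    constructor
    · exact div_lt_self hU0 hC21
    · show U < C2 * U
      nlinarith)
  intro s hs
  have hall : ∀ r ∈ Icc s1 s, U / C2 ≤ -c r ∧ -c r ≤ C2 * U := fun r hr =>
    ⟨(htrap r ⟨hr.1, hr.2.trans hs.2⟩).1.le, (htrap r ⟨hr.1, hr.2.trans hs.2⟩).2.le⟩
  obtain ⟨h1, h2, h3, -⟩ := core s hs hall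
  have hss : s ∈ Icc s1 s := ⟨hs.1, le_rfl⟩
  have hp : 0 < -c s := lt_of_lt_of_le (div_pos hU0 (by linarith)) (hall s hss).1
  have hcabs : |c s| = -c s := abs_of_neg (by linarith)
  rw [hUabs, hcabs]
  refine ⟨by linarith, ?_, (hall s hss).2, ?_, ?_, ?_⟩
  · have := (hall s hss).1
    rw [div_le_iff₀ (by linarith)] at this
    linarith
  · have := h1 s hss
    rw [le_div_iff₀ hp] at this
    linarith
  · have := h3 s hss
    rw [div_le_iff₀ hp] at this
    refine this.trans ?_
    apply mul_le_mul_of_nonneg_right _ hp.le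
    linarith
  · intro h4
    have := h2 s hss (by linarith)
    by_contra hc
    have h5 : a s / (-c s) < 0 := div_neg_of_neg_of_pos (not_le.mp hc) hp
    linarith

end Pool.Agent.W885.LGD2
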