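import Pool.Agent.W391.BGR.Stm

/-!
BGR-LC: local confluence of the rewriting system for the Baumslag-Gersten group.
-/

set_option autoImplicit false

namespace Pool.Agent.W885.BGRLC

open Pool.Agent.W391.BGR Relation

/-- the rules, as a list -/
def RL : List (Wd × Wd) :=
  [([0, 1], []), ([1, 0], []), ([4, 5], []), ([5, 4], []), ([4, 0], [0, 4, 4]),
    ([5, 0], [0, 5, 5]), ([4, 4, 1], [1, 4]), ([5, 1], [4, 1, 5]),
    ([2, 3], []), ([3, 2], []), ([3, 0], [0, 0, 3]), ([3, 1], [1, 1, 3]), ([2, 0, 0], [0, 2]),
    ([2, 1], [1, 2, 0]),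
    ([6, 7], []), ([7, 6], []), ([6, 0], [4, 6]), ([6, 1], [5, 6]), ([6, 2], [0, 6]),
    ([6, 3], [1, 6]), ([7, 4], [0, 7]), ([7, 5], [1, 7]), ([7, 0], [2, 7]), ([7, 1], [3, 7])]

theorem RR_sub : ∀ p ∈ RR, p ∈ RL := by decide +kernel

theorem RL_sub : ∀ p ∈ RL, p ∈ RR := by decide +kernel

/-- prefix test -/
def pre : Wd → Wd → Bool
  | [], _ => true
  | _ :: _, [] => false
  | a :: l, b :: w => Nat.beq a.val b.val && pre l w

theorem pre_spec : ∀ l w : Wd, pre l w = true → w = l ++ w.drop l.length
  | [], w, _ => by simp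
  | _ :: _, [], h => by simp [pre] at h
  | a :: l, b :: w, h => by
    simp only [pre, Bool.and_eq_true] at h
    have h1 : a = b := Fin.ext (Nat.eq_of_beq_eq_true h.1)
    have h2 := pre_spec l w h.2
    subst h1
    simp only [List.length_cons, List.drop_succ_cons, List.cons_append, List.cons.injEq, true_and]
    exact h2

/-- rewriting at the head -/
def hd : List (Wd × Wd) → Wd → Option Wd
  | [], _ => none
  | p :: L, w => if pre p.1 w = true then some (p.2 ++ w.drop p.1.length) else hd L w

theorem hd_spec : ∀ (L : List (Wd × Wd)), (∀ p ∈ L, p ∈ RR) → ∀ w v : Wd, hd L w = some v →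
    St RR w v
  | [], _, w, v, h => by simp [hd] at h
  | p :: L, hL, w, v, h => by
    rw [hd] at h
    split_ifs at h with h1
    · simp only [Option.some.injEq] at h
      have h2 := pre_spec _ _ h1
      refine ⟨[], w.drop p.1.length, p, hL p (by simp), ?_, ?_⟩
      · simpa using h2
      · simpa using h.symm
    · exact hd_spec L (fun q hq => hL q (by simp [hq])) w v h

/-- one step at the first possible position -/
def stp : Wd → Option Wd
  | [] => none
  | a :: w => match hd RL (a :: w) with
    | some v => some v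
    | none => match stp w with
      | some v => some (a :: v)
      | none => none

theorem St_ctx {u v : Wd} (h : St RR u v) (x y : Wd) : St RR (x ++ u ++ y) (x ++ v ++ y) := by
  obtain ⟨a, b, p, hp, rfl, rfl⟩ := h
  exact ⟨x ++ a, b ++ y, p, hp, by simp [List.append_assoc], by simp [List.append_assoc]⟩

theorem stp_spec : ∀ w v : Wd, stp w = some v → St RR w v
  | [], v, h => by simp [stp] at h
  | a :: w, v, h => by
    rw [stp] at h
    cases h1 : hd RL (a :: w) with
    | some v' =>
      rw [h1] at h
      simp only [Option.some.injEq] at h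
      subst h
      exact hd_spec RL RL_sub _ _ h1
    | none =>
      rw [h1] at h
      cases h2 : stp w with
      | some v' =>
        rw [h2] at h
        simp only [Option.some.injEq] at h
        subst h
        have h3 := St_ctx (stp_spec w v' h2) [a] []
        simpa using h3
      | none => rw [h2] at h; simp at h

/-- the normaliser -/
def nf : ℕ → Wd → Wd
  | 0, w => w
  | k + 1, w => match stp w with
    | some v => nf k v
    | none => w

theorem nf_spec : ∀ (k : ℕ) (w : Wd), ReflTransGen (St RR) w (nf k w)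
  | 0, w => ReflTransGen.refl
  | k + 1, w => by
    rw [nf]
    cases h : stp w with
    | some v => exact ReflTransGen.head (stp_spec w v h) (nf_spec k v)
    | none => exact ReflTransGen.refl

theorem Red_ctx {u v : Wd} (h : ReflTransGen (St RR) u v) (x y : Wd) :
    ReflTransGen (St RR) (x ++ u ++ y) (x ++ v ++ y) := by
  induction h with
  | refl => exact ReflTransGen.refl
  | tail _ h2 ih => exact ih.tail (St_ctx h2 x y)

/-- the critical pairs -/
def chk : Bool :=
  RL.all fun p => RL.all fun q => (List.range 3).all fun k =>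
    (!(!(p.1.drop k).isEmpty && decide (q.1.take (p.1.drop k).length = p.1.drop k)) ||
      decide (nf 60 (p.2 ++ q.1.drop (p.1.drop k).length) = nf 60 (p.1.take k ++ q.2))) &&
    (!(decide ((p.1.drop k).take q.1.length = q.1)) ||
      decide (nf 60 (p.1.take k ++ q.2 ++ (p.1.drop k).drop q.1.length) = nf 60 p.2))

set_option maxRecDepth 100000 in
theorem chk_true : chk = true := by decide +kernel

theorem drop_lt {l d e : Wd} (h : l = d ++ e) : l.take d.length = d ∧ l.drop d.length = e := by
  subst h
  simp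

theorem len_RL : ∀ p ∈ RL, p.1.length ≤ 3 := by decide +kernel

/-- the check for one pair of rules -/
theorem chk_pair {p q : Wd × Wd} (hp : p ∈ RR) (hq : q ∈ RR) {k : ℕ} (hk : k < 3) :
    (p.1.drop k ≠ [] → q.1.take (p.1.drop k).length = p.1.drop k →
      nf 60 (p.2 ++ q.1.drop (p.1.drop k).length) = nf 60 (p.1.take k ++ q.2)) ∧
    ((p.1.drop k).take q.1.length = q.1 →
      nf 60 (p.1.take k ++ q.2 ++ (p.1.drop k).drop q.1.length) = nf 60 p.2) := by
  have h := chk_true
  rw [chk, List.all_eq_true] at h
  have h1 := h p (RR_sub p hp)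
  rw [List.all_eq_true] at h1
  have h2 := h1 q (RR_sub q hq)
  rw [List.all_eq_true] at h2
  have h3 := h2 k (List.mem_range.2 hk)
  simp only [Bool.and_eq_true, Bool.or_eq_true, Bool.not_eq_true', Bool.and_eq_false_iff,
    Bool.not_eq_false', List.isEmpty_iff, decide_eq_true_eq, decide_eq_false_iff_not] at h3
  refine ⟨fun h4 h5 => ?_, fun h4 => ?_⟩
  · rcases h3.1 with (h6 | h6) | h6
    · exact absurd h6 h4
    · exact absurd h5 h6
    · exact h6
  · rcases h3.2 with h6 | h6
    · exact absurd h4 h6
    · exact h6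

theorem ne_RL : ∀ p ∈ RL, p.1 ≠ [] := by decide +kernel

theorem join_nf {u v : Wd} (h : nf 60 u = nf 60 v) (x y : Wd) :
    Join (ReflTransGen (St RR)) (x ++ u ++ y) (x ++ v ++ y) :=
  ⟨x ++ nf 60 u ++ y, Red_ctx (nf_spec 60 u) x y, by rw [h]; exact Red_ctx (nf_spec 60 v) x y⟩

/-- disjoint redexes -/
theorem disj {p q : Wd × Wd} (hp : p ∈ RR) (hq : q ∈ RR) (x e y : Wd) :
    Join (ReflTransGen (St RR)) (x ++ p.2 ++ (e ++ (q.1 ++ y))) (x ++ (p.1 ++ e) ++ q.2 ++ y) := by
  refine ⟨x ++ p.2 ++ e ++ q.2 ++ y, ReflTransGen.single ?_, ReflTransGen.single ?_⟩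
  · exact ⟨x ++ p.2 ++ e, y, q, hq, by simp [List.append_assoc], by simp [List.append_assoc]⟩
  · exact ⟨x, e ++ q.2 ++ y, p, hp, by simp [List.append_assoc], by simp [List.append_assoc]⟩

theorem half {p q : Wd × Wd} (hp : p ∈ RR) (hq : q ∈ RR) (x y y' d : Wd)
    (h : p.1 ++ y = d ++ (q.1 ++ y')) :
    Join (ReflTransGen (St RR)) (x ++ p.2 ++ y) ((x ++ d) ++ q.2 ++ y') := by
  rcases List.append_eq_append_iff.1 h with ⟨e, hd, hy⟩ | ⟨e, hl, hy⟩
  · subst hd
    subst hy
    exact disj hp hq x e y'
  · obtain ⟨ht, hdr⟩ := drop_lt hl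
    by_cases he : e = []
    · subst he
      have h1 : d = p.1 := by simpa using hl.symm
      have h2 : y = q.1 ++ y' := by simpa using hy.symm
      subst h1
      subst h2
      simpa using disj hp hq x [] y'
    · have hk : d.length < 3 := by
        have h1 := len_RL p (RR_sub p hp)
        have h2 : 0 < e.length := List.length_pos_iff.2 he
        rw [hl, List.length_append] at h1
        omega
      have hc := chk_pair hp hq hk
      rw [hdr, ht] at hc
      rcases List.append_eq_append_iff.1 hy with ⟨f, he2, hy2⟩ | ⟨f, hq2, hy2⟩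
      · have h3 : e.take q.1.length = q.1 ∧ e.drop q.1.length = f := drop_lt he2
        have h4 := hc.2 h3.1
        rw [h3.2] at h4
        subst hy2
        have h5 := join_nf h4.symm x y
        simpa [List.append_assoc] using h5
      · have h3 : q.1.take e.length = e ∧ q.1.drop e.length = f := drop_lt hq2
        have h4 := hc.1 he h3.1
        rw [h3.2] at h4
        subst hy2
        have h5 := join_nf h4 x y'
        simpa [List.append_assoc] using h5

theorem main : LC := by
  rintro u v w ⟨x, y, p, hp, hu, rfl⟩ ⟨x', y', q, hq, hu', rfl⟩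
  have h : x ++ (p.1 ++ y) = x' ++ (q.1 ++ y') := by
    rw [← List.append_assoc, ← List.append_assoc, ← hu, ← hu']
  rcases List.append_eq_append_iff.1 h with ⟨d, hd, hy⟩ | ⟨d, hd, hy⟩
  · subst hd
    exact half hp hq x y y' d hy
  · subst hd
    obtain ⟨z, h1, h2⟩ := half hq hp x' y' y d hy
    exact ⟨z, h2, h1⟩

end Pool.Agent.W885.BGRLC
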