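import Pool.Agent.W894.HT.MLib
import Pool.Agent.W52.HTCNF

/-!
# The signed number of choices is the number of satisfying assignments
-/

set_option autoImplicit false

namespace Pool.Agent.W885.HNScnf

open Pool.Agent.W894.HT
open Pool.Agent.NPC Pool.Agent.NPC.Cnt
open Pool.Agent.W52.HTCNF

/-- the signed number of choices without repetition after the list `L`, the signs of the
stages being read from the index `k` on -/
def scnt (S : Stg) (τ : ℕ → Bool) (k : ℕ) (L : List Lb) : ℤ :=
  ((allB S.length).map fun bs => if (L ++ lbs S bs).Nodup then sgb τ k bs else 0).sum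

theorem scnt_nil (τ : ℕ → Bool) (k : ℕ) (L : List Lb) (h : L.Nodup) : scnt [] τ k L = 1 := by
  simp [scnt, allB, lbs, sgb, h]

theorem scnt_cons (P Q : List Lb) (S : Stg) (τ : ℕ → Bool) (k : ℕ) (L : List Lb) :
    scnt ((P, Q) :: S) τ k L = scnt S τ (k + 1) (L ++ P) +
      (if τ k = true then -1 else 1) * scnt S τ (k + 1) (L ++ Q) := by
  unfold scnt
  rw [List.length_cons, allB, List.map_append, List.sum_append, List.map_map, List.map_map,
    ← List.sum_map_mul_left]
  congr 1
  · congr 1
    refine List.map_congr_left fun bs _ => ?_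
    simp [lbs, sgb]
  · congr 1
    refine List.map_congr_left fun bs _ => ?_
    simp only [Function.comp_def, lbs, sgb, List.append_assoc, if_true, true_and]
    by_cases h : (L ++ (Q ++ lbs S bs)).Nodup
    · rw [if_pos h, if_pos h]
    · rw [if_neg h, if_neg h, mul_zero]

theorem scnt_not (S : Stg) (τ : ℕ → Bool) (k : ℕ) (L : List Lb) (h : ¬ L.Nodup) :
    scnt S τ k L = 0 := by
  unfold scnt
  refine List.sum_eq_zero ?_
  intro x hx
  rw [List.mem_map] at hx
  obtain ⟨bs, _, rfl⟩ := hx
  rw [if_neg]
  intro hc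
  exact h (List.Nodup.of_append_left hc)

theorem clauseS (φ : CNF ℕ) (τ : ℕ → Bool) : ∀ (k j : ℕ) (L : List Lb), L.Nodup →
    (∀ i, k ≤ i → τ i = true) →
    scnt ((φ.zipIdx j).map fun p => cst p.1 p.2) τ k L =
      (open Classical in
        if ∀ p ∈ φ.zipIdx j, ¬ ∀ a ∈ cl p.1 p.2, a ∉ L then 1 else 0) := by
  classical
  induction φ with
  | nil =>
    intro k j L hL _
    simp [scnt_nil τ k L hL]
  | cons c φ ih =>
    intro k j L hL hτ
    have hτ' : ∀ i, k + 1 ≤ i → τ i = true := fun i hi => hτ i (by omega)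
    rw [List.zipIdx_cons, List.map_cons]
    have e : cst c j = ([], cl c j) := rfl
    rw [e, scnt_cons, List.append_nil, if_pos (hτ k le_rfl)]
    by_cases hF : ∀ a ∈ cl c j, a ∉ L
    · have h1 : (L ++ cl c j).Nodup := (nodup_append_cl c j L hL).2 hF
      have h2 := ih (k + 1) (j + 1) L hL hτ'
      have h3 := ih (k + 1) (j + 1) (L ++ cl c j) h1 hτ'
      have h4 : (∀ p ∈ φ.zipIdx (j + 1), ¬ ∀ a ∈ cl p.1 p.2, a ∉ L ++ cl c j) ↔
          (∀ p ∈ φ.zipIdx (j + 1), ¬ ∀ a ∈ cl p.1 p.2, a ∉ L) := by
        refine forall₂_congr fun p hp => not_congr ?_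
        refine forall₂_congr fun a ha => ?_
        rw [List.mem_append, not_or]
        refine ⟨fun h => h.1, fun h => ⟨h, fun h' => ?_⟩⟩
        have h5 := mem_cl ha
        have h6 := mem_cl h'
        have h7 := List.le_snd_of_mem_zipIdx hp
        omega
      rw [if_neg]
      · simp only [h4] at h3
        rw [← h2] at h3
        rw [h3]
        ring
      · intro h
        exact h (c, j) List.mem_cons_self hF
    · have h1 : ¬ (L ++ cl c j).Nodup := fun h => hF ((nodup_append_cl c j L hL).1 h)
      rw [scnt_not _ _ _ _ h1, mul_zero, add_zero, ih (k + 1) (j + 1) L hL hτ']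
      congr 1
      rw [List.forall_mem_cons]
      exact propext ⟨fun h => ⟨hF, h⟩, fun h => h.2⟩

theorem varstS (φ : CNF ℕ) (T : Stg) (τ : ℕ → Bool) : ∀ (X : List ℕ), X.Nodup → ∀ (k : ℕ)
    (L : List Lb), (∀ i, k ≤ i → i < k + X.length → τ i = false) →
    scnt (X.map (vst φ) ++ T) τ k L =
      ∑ A ∈ X.toFinset.powerset, scnt T τ (k + X.length) (L ++ lab φ X A) := by
  intro X
  induction X with
  | nil =>
    intro _ k L _
    simp [lab]
  | cons v X ih =>
    intro hX k L hτ
    rw [List.nodup_cons] at hX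
    rw [List.map_cons, List.cons_append]
    have e : vst φ v = (occ φ v false, occ φ v true) := rfl
    have hk : τ k = false := hτ k le_rfl (by rw [List.length_cons]; omega)
    have hτ' : ∀ i, k + 1 ≤ i → i < k + 1 + X.length → τ i = false := fun i h1 h2 =>
      hτ i (by omega) (by rw [List.length_cons]; omega)
    have hl : k + (v :: X).length = k + 1 + X.length := by
      rw [List.length_cons]; omega
    rw [e, scnt_cons, ih hX.2 _ _ hτ', ih hX.2 _ _ hτ', List.toFinset_cons,
      Finset.sum_powerset_insert (by simpa using hX.1), hk, if_neg (by decide), one_mul, hl]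
    congr 1
    · refine Finset.sum_congr rfl fun A hA => ?_
      have hv : v ∉ A := fun h => hX.1 (by simpa using Finset.mem_powerset.1 hA h)
      unfold lab
      rw [List.flatMap_cons, List.append_assoc]
      simp [hv]
    · refine Finset.sum_congr rfl fun A hA => ?_
      have h1 : lab φ X (insert v A) = lab φ X A := by
        unfold lab
        refine List.flatMap_congr fun u hu => ?_
        have hu' : u ≠ v := fun h => hX.1 (h ▸ hu)
        simp [hu']
      have h2 : lab φ (v :: X) (insert v A) = occ φ v true ++ lab φ X (insert v A) := by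
        unfold lab
        rw [List.flatMap_cons]
        simp
      rw [h2, h1, List.append_assoc]

theorem main : S_SCNF := by
  classical
  intro φ
  have h0 : snc (stg φ) (tau φ) = scnt (stg φ) (tau φ) 0 [] := by
    unfold snc scnt
    simp only [List.nil_append]
  have hτ1 : ∀ i, 0 + 1 ≤ i → i < 0 + 1 + (ddg (φ.flatten.map Prod.snd)).length →
      tau φ i = false := by
    intro i _ hi
    unfold tau
    rw [decide_eq_false_iff_not]
    omega
  have hτ2 : ∀ i, 0 + 1 + (ddg (φ.flatten.map Prod.snd)).length ≤ i → tau φ i = true := by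
    intro i hi
    unfold tau
    rw [decide_eq_true_eq]
    omega
  rw [h0]
  have e0 : stg φ = ([], [(0, 0, 0, false), (0, 0, 0, false)]) ::
      ((ddg (φ.flatten.map Prod.snd)).map (vst φ) ++ φ.zipIdx.map fun p => cst p.1 p.2) := rfl
  rw [e0, scnt_cons, List.nil_append, List.nil_append,
    scnt_not _ _ _ [(0, 0, 0, false), (0, 0, 0, false)] (by simp), mul_zero, add_zero,
    varstS φ _ _ _ (ddg_nodup _) _ _ hτ1]
  have h1 : ∀ A ∈ (ddg (φ.flatten.map Prod.snd)).toFinset.powerset,
      scnt (φ.zipIdx.map fun p => cst p.1 p.2) (tau φ)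
        (0 + 1 + (ddg (φ.flatten.map Prod.snd)).length)
        ([] ++ lab φ (ddg (φ.flatten.map Prod.snd)) A) = if SatBy A φ then 1 else 0 := by
    intro A _
    rw [List.nil_append, clauseS φ (tau φ) _ 0 _ (nodup_lab φ _ (ddg_nodup _) A) hτ2]
    by_cases h : SatBy A φ
    · rw [if_pos h, if_pos ((sat_iff φ A).2 h)]
    · rw [if_neg h, if_neg (fun h' => h ((sat_iff φ A).1 h'))]
  rw [Finset.sum_congr rfl h1]
  have h2 : (ddg (φ.flatten.map Prod.snd)).toFinset = vars φ := by
    ext a
    unfold vars
    rw [List.mem_toFinset, List.mem_toFinset, ddg_mem]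
  rw [h2]
  unfold satCount
  rw [Finset.card_filter]
  push_cast
  rfl

end Pool.Agent.W885.HNScnf
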